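import Pool.Agent.H958.RL.Stm
import Pool.Graph.R_seed8.W657.RD.PBas

/-!
# Project RL: the first stage
-/

set_option autoImplicit false

namespace Pool.Agent.H357.RL.Stg

open Finset
open scoped Classical
open Pool.Agent.W830.RD (Om gle Pr Rlz)
open Pool.Agent.H958.RL

noncomputable section

variable {n : ℕ}

theorem mem_prv {E : Finset (Fin n × Fin n)} {T S0 : Finset (Fin n)} {s t : ℕ} {v : Fin n} :
    v ∈ prv E T S0 s t ↔ s ≤ (v : ℕ) ∧ (v : ℕ) < t ∧
      ∃ u ∈ S0, T.filter (fun w => (w, v) ∈ E) = {u} := by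
  unfold prv
  rw [mem_filter]
  exact ⟨fun h => h.2, fun h => ⟨mem_univ _, h⟩⟩

theorem prv_congr {E E' : Finset (Fin n × Fin n)} (T S0 : Finset (Fin n)) (s t : ℕ)
    (h : ∀ w v : Fin n, s ≤ (v : ℕ) → (v : ℕ) < t → ((w, v) ∈ E ↔ (w, v) ∈ E')) :
    prv E T S0 s t = prv E' T S0 s t := by
  ext v
  rw [mem_prv, mem_prv]
  constructor
  · rintro ⟨h1, h2, u, hu, h3⟩
    refine ⟨h1, h2, u, hu, ?_⟩
    rw [← h3]
    exact filter_congr fun w _ => (h w v h1 h2).symm
  · rintro ⟨h1, h2, u, hu, h3⟩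
    refine ⟨h1, h2, u, hu, ?_⟩
    rw [← h3]
    exact filter_congr fun w _ => h w v h1 h2

theorem prv_edge {E : Finset (Fin n × Fin n)} {T S0 : Finset (Fin n)} {s t : ℕ} {v : Fin n}
    (h : v ∈ prv E T S0 s t) : ∃ u ∈ S0, (u, v) ∈ E := by
  obtain ⟨-, -, u, hu, h3⟩ := mem_prv.1 h
  refine ⟨u, hu, ?_⟩
  have h4 : u ∈ T.filter (fun w => (w, v) ∈ E) := by
    rw [h3]
    exact mem_singleton_self u
  exact (mem_filter.1 h4).2

theorem prv_both {E : Finset (Fin n × Fin n)} {T S0 S1 : Finset (Fin n)} {s t : ℕ} {v : Fin n}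
    (h : v ∈ prv E T S0 s t) (h' : v ∈ prv E T S1 s t) : ∃ u, u ∈ S0 ∧ u ∈ S1 := by
  obtain ⟨-, -, u, hu, h3⟩ := mem_prv.1 h
  obtain ⟨-, -, u', hu', h3'⟩ := mem_prv.1 h'
  have h4 : u = u' := singleton_injective (h3.symm.trans h3')
  exact ⟨u, hu, h4 ▸ hu'⟩

/-- The first `a` vertices. -/
def I0 (n a : ℕ) : Finset (Fin n) := univ.filter (fun x => (x : ℕ) < a)

theorem mem_I0 {a : ℕ} {x : Fin n} : x ∈ I0 n a ↔ (x : ℕ) < a := by
  unfold I0
  rw [mem_filter]
  exact ⟨fun h => h.2, fun h => ⟨mem_univ _, h⟩⟩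

theorem card_I0 {a : ℕ} (h : a ≤ n) : (I0 n a).card = a := by
  have e : (I0 n a).map Fin.valEmbedding = range a := by
    ext k
    rw [mem_map, mem_range]
    constructor
    · rintro ⟨x, hx, rfl⟩
      exact mem_I0.1 hx
    · intro hk
      exact ⟨⟨k, by omega⟩, mem_I0.2 hk, rfl⟩
  rw [← card_map Fin.valEmbedding, e, card_range]

theorem biUnion_I0 (a : ℕ) : (I0 n a).biUnion (fun x => ({x} : Finset (Fin n))) = I0 n a := by
  ext x
  simp

/-- The members of `I0` with at least `r` private neighbours. -/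
def I1 (E : Finset (Fin n × Fin n)) (a d r : ℕ) : Finset (Fin n) :=
  (I0 n a).filter (fun x => r ≤ (prv E (I0 n a) {x} a (a + d)).card)

/-- `r` private neighbours. -/
def T1 (E : Finset (Fin n × Fin n)) (a d r : ℕ) (x : Fin n) : Finset (Fin n) :=
  if h : r ≤ (prv E (I0 n a) {x} a (a + d)).card then
    Classical.choose (Finset.exists_subset_card_eq h) else ∅

theorem T1_sub (E : Finset (Fin n × Fin n)) (a d r : ℕ) (x : Fin n) :
    T1 E a d r x ⊆ prv E (I0 n a) {x} a (a + d) := by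
  unfold T1
  split_ifs with h
  · exact (Classical.choose_spec (Finset.exists_subset_card_eq h)).1
  · exact empty_subset _

theorem T1_card {E : Finset (Fin n × Fin n)} {a d r : ℕ} {x : Fin n} (h : x ∈ I1 E a d r) :
    (T1 E a d r x).card = r := by
  have h' : r ≤ (prv E (I0 n a) {x} a (a + d)).card := (mem_filter.1 h).2
  unfold T1
  rw [dif_pos h']
  exact (Classical.choose_spec (Finset.exists_subset_card_eq h')).2

theorem T1_disj (E : Finset (Fin n × Fin n)) (a d r : ℕ) (x y : Fin n) (hxy : x ≠ y) :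
    Disjoint (T1 E a d r x) (T1 E a d r y) := by
  rw [Finset.disjoint_left]
  intro v hv hv'
  obtain ⟨u, h1, h2⟩ := prv_both (T1_sub E a d r x hv) (T1_sub E a d r y hv')
  rw [mem_singleton] at h1 h2
  exact hxy (h1.symm.trans h2)

theorem T1_lt {E : Finset (Fin n × Fin n)} {a d r : ℕ} {x u : Fin n} (h : u ∈ T1 E a d r x) :
    (u : ℕ) < a + d := (mem_prv.1 (T1_sub E a d r x h)).2.1

theorem T1_congr {E E' : Finset (Fin n × Fin n)} (a d r : ℕ)
    (h : ∀ w v : Fin n, a ≤ (v : ℕ) → (v : ℕ) < a + d → ((w, v) ∈ E ↔ (w, v) ∈ E')) :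
    T1 E a d r = T1 E' a d r := by
  funext x
  unfold T1
  simp only [prv_congr (I0 n a) {x} a (a + d) h]

theorem I1_congr {E E' : Finset (Fin n × Fin n)} (a d r : ℕ)
    (h : ∀ w v : Fin n, a ≤ (v : ℕ) → (v : ℕ) < a + d → ((w, v) ∈ E ↔ (w, v) ∈ E')) :
    I1 E a d r = I1 E' a d r := by
  unfold I1
  refine filter_congr fun x _ => ?_
  rw [prv_congr (I0 n a) {x} a (a + d) h]

/-- The exceptional event of the second step. -/
def Q2 (p : ℝ) (a d r : ℕ) (E1 E2 : Finset (Fin n × Fin n)) : Prop :=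
  3 * a ≤ 4 * (I1 E1 a d r).card ∧
    ((I1 E1 a d r).card : ℝ) / 4 < (((I1 E1 a d r).filter (fun i =>
      ((prv E2 ((I1 E1 a d r).biUnion (T1 E1 a d r)) (T1 E1 a d r i) (a + d)
        (a + d + d)).card : ℝ) < d * r * p / 2)).card : ℝ)

/-- The edges with upper endpoint at least `a + d`. -/
def SS (n a d : ℕ) : Finset (Fin n × Fin n) := (Om n).filter (fun e => a + d ≤ (e.2 : ℕ))

theorem mem_SS {E : Finset (Fin n × Fin n)} (hE : E ⊆ Om n) {a d : ℕ} {w v : Fin n} :
    (w, v) ∈ E ∩ SS n a d ↔ (w, v) ∈ E ∧ a + d ≤ (v : ℕ) := by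
  unfold SS
  rw [mem_inter, mem_filter]
  exact ⟨fun h => ⟨h.1, h.2.2⟩, fun h => ⟨h.1, hE h.1, h.2⟩⟩

theorem mem_SS' {E : Finset (Fin n × Fin n)} {a d : ℕ} {w v : Fin n} (hv : (v : ℕ) < a + d) :
    (w, v) ∈ E \ SS n a d ↔ (w, v) ∈ E := by
  unfold SS
  rw [mem_sdiff, mem_filter]
  refine ⟨fun h => h.1, fun h => ⟨h, fun h' => ?_⟩⟩
  have := h'.2
  simp only at this
  omega

theorem stg_of (p : ℝ) (a d r φ : ℕ) (E : Finset (Fin n × Fin n)) (hE : E ⊆ Om n)
    (han : a ≤ n) (hr2 : 2 * (r : ℝ) ≤ d * p) (hφ : 2 * (φ : ℝ) ≤ d * r * p)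
    (h1 : ¬ ((I0 n a).card : ℝ) / 4 < (((I0 n a).filter (fun i =>
      ((prv E (I0 n a) {i} a (a + d)).card : ℝ) < d * (1 : ℕ) * p / 2)).card : ℝ))
    (h2 : ¬ Q2 p a d r (E \ SS n a d) (E ∩ SS n a d)) : Stg E a d φ := by
  have hlow : ∀ w v : Fin n, a ≤ (v : ℕ) → (v : ℕ) < a + d →
      ((w, v) ∈ E \ SS n a d ↔ (w, v) ∈ E) := fun w v _ hv => mem_SS' hv
  have hup : ∀ w v : Fin n, a + d ≤ (v : ℕ) → (v : ℕ) < a + d + d →
      ((w, v) ∈ E ∩ SS n a d ↔ (w, v) ∈ E) := fun w v hv _ => by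
    rw [mem_SS hE]
    exact ⟨fun h => h.1, fun h => ⟨h, hv⟩⟩
  unfold Q2 at h2
  rw [I1_congr a d r hlow, T1_congr a d r hlow] at h2
  simp only [prv_congr _ _ (a + d) (a + d + d) hup] at h2
  rw [card_I0 han, not_lt] at h1
  -- the first set is large
  have hI1 : 3 * a ≤ 4 * (I1 E a d r).card := by
    have h3 := card_filter_add_card_filter_not (s := I0 n a) (fun i =>
      ((prv E (I0 n a) {i} a (a + d)).card : ℝ) < d * (1 : ℕ) * p / 2)
    have h4 : ((I0 n a).filter (fun i => ¬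
      ((prv E (I0 n a) {i} a (a + d)).card : ℝ) < d * (1 : ℕ) * p / 2)).card ≤
        (I1 E a d r).card := by
      refine card_le_card ?_
      intro x hx
      rw [mem_filter] at hx
      refine mem_filter.2 ⟨hx.1, ?_⟩
      have h5 := not_lt.1 hx.2
      have h6 : (r : ℝ) ≤ ((prv E (I0 n a) {x} a (a + d)).card : ℝ) := by
        push_cast at h5
        linarith
      exact_mod_cast h6
    rw [card_I0 han] at h3
    have h7 : (a : ℝ) ≤ (((I0 n a).filter (fun i =>
      ((prv E (I0 n a) {i} a (a + d)).card : ℝ) < d * (1 : ℕ) * p / 2)).card : ℝ) +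
        ((I1 E a d r).card : ℝ) := by
      have : a ≤ ((I0 n a).filter (fun i =>
        ((prv E (I0 n a) {i} a (a + d)).card : ℝ) < d * (1 : ℕ) * p / 2)).card +
          (I1 E a d r).card := by
        omega
      exact_mod_cast this
    have h8 : 3 * (a : ℝ) ≤ 4 * ((I1 E a d r).card : ℝ) := by linarith
    exact_mod_cast h8
  have h3 := not_lt.1 (fun h => h2 ⟨hI1, h⟩)
  set I := I1 E a d r with hI
  set T := I.biUnion (T1 E a d r) with hT
  have h4 := card_filter_add_card_filter_not (s := I) (fun i =>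
    ((prv E T (T1 E a d r i) (a + d) (a + d + d)).card : ℝ) < d * r * p / 2)
  refine ⟨I.filter (fun i =>
    ¬ ((prv E T (T1 E a d r i) (a + d) (a + d + d)).card : ℝ) < d * r * p / 2),
    fun x => prv E T (T1 E a d r x) (a + d) (a + d + d), ?_, ?_, ?_, ?_, ?_⟩
  · intro x hx
    have hx1 := (mem_filter.1 hx).1
    rw [hI] at hx1
    exact mem_I0.1 (mem_filter.1 hx1).1
  · have h5 : (I.card : ℝ) = ((I.filter (fun i =>
        ((prv E T (T1 E a d r i) (a + d) (a + d + d)).card : ℝ) < d * r * p / 2)).card : ℝ) +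
        ((I.filter (fun i => ¬
        ((prv E T (T1 E a d r i) (a + d) (a + d + d)).card : ℝ) < d * r * p / 2)).card : ℝ) := by
      exact_mod_cast h4.symm
    have h6 : 3 * (a : ℝ) ≤ 4 * (I.card : ℝ) := by exact_mod_cast hI1
    have h7 : (a : ℝ) ≤ 2 * ((I.filter (fun i => ¬
        ((prv E T (T1 E a d r i) (a + d) (a + d + d)).card : ℝ) < d * r * p / 2)).card : ℝ) := by
      have h8 : (0 : ℝ) ≤ a := Nat.cast_nonneg a
      linarith
    exact_mod_cast h7
  · intro x hx
    have h5 := not_lt.1 (mem_filter.1 hx).2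
    have h6 : (φ : ℝ) ≤ ((prv E T (T1 E a d r x) (a + d) (a + d + d)).card : ℝ) := by linarith
    exact_mod_cast h6
  · intro x _ y _ hxy
    rw [Finset.disjoint_left]
    intro v hv hv'
    obtain ⟨u, hu1, hu2⟩ := prv_both hv hv'
    exact Finset.disjoint_left.1 (T1_disj E a d r x y hxy) hu1 hu2
  · intro x _ v hv
    have h5 := (mem_prv.1 hv).2.1
    refine ⟨by omega, ?_⟩
    obtain ⟨u, hu, huv⟩ := prv_edge hv
    obtain ⟨x', hx', hxu⟩ := prv_edge (T1_sub E a d r x hu)
    rw [mem_singleton] at hx'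
    subst hx'
    have h6 := T1_lt hu
    have e1 : (x', u) ∈ seg E 0 (a + 2 * d) :=
      mem_filter.2 ⟨hxu, Nat.zero_le _, by show (u : ℕ) < _; omega⟩
    have e2 : (u, v) ∈ seg E 0 (a + 2 * d) :=
      mem_filter.2 ⟨huv, Nat.zero_le _, by show (v : ℕ) < _; omega⟩
    exact (Relation.ReflTransGen.single e1).tail e2

theorem main (h1 : S_PRIV) (h2 : S_COND) : S_STG := by
  intro p n a d r φ hp0 hp1 ha hr hn hr2 hφ h400 hpr
  have han : a ≤ n := by omega
  obtain ⟨qt, _, qm, qu, qn, _⟩ := Pool.Agent.W657.RD.PBas.main p n hp0 hp1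
  have haR : (1 : ℝ) ≤ a := by exact_mod_cast ha
  have hrR : (1 : ℝ) ≤ r := by exact_mod_cast hr
  have hdp : 0 ≤ (d : ℝ) * p := by linarith
  have hdrp : (d : ℝ) * p ≤ d * r * p := by nlinarith
  -- the first step
  have s1 := h1 p n a d 1 (I0 n a) (fun x => ({x} : Finset (Fin n))) hp0 hp1
    (card_pos.1 (by rw [card_I0 han]; omega)) (fun i _ => card_singleton i)
    (fun i _ j _ hij => by simpa using hij)
    (fun i hi u hu => by
      rw [mem_singleton] at hu
      rw [hu]
      exact mem_I0.1 hi)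
    (by omega)
    (by
      rw [card_I0 han]
      push_cast
      refine le_trans ?_ hpr
      refine mul_le_mul_of_nonneg_left ?_ hp0.le
      exact mul_le_mul_of_nonneg_right hrR (by linarith))
    (by push_cast; linarith)
  rw [biUnion_I0] at s1
  -- the second step
  have s2 : Pr p n (fun E => Q2 p a d r (E \ SS n a d) (E ∩ SS n a d)) ≤
      800 / 3 * (d * r * p) / a := by
    refine h2 p (800 / 3 * (d * r * p) / a) n (SS n a d) (Q2 p a d r) hp0 hp1 ?_
    intro E1 hE1
    by_cases hc : 3 * a ≤ 4 * (I1 E1 a d r).card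
    · set I := I1 E1 a d r with hI
      have hIpos : 0 < I.card := by omega
      have hIa : I.card ≤ a := by
        calc I.card ≤ (I0 n a).card := card_le_card (filter_subset _ _)
          _ = a := card_I0 han
      have hIaR : (I.card : ℝ) ≤ a := by exact_mod_cast hIa
      have s3 := h1 p n (a + d) d r I (T1 E1 a d r) hp0 hp1 (card_pos.1 hIpos)
        (fun i hi => T1_card hi) (fun i _ j _ hij => T1_disj E1 a d r i j hij)
        (fun i _ u hu => T1_lt hu) (by omega)
        (by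
          refine le_trans ?_ hpr
          refine mul_le_mul_of_nonneg_left ?_ hp0.le
          exact mul_le_mul_of_nonneg_left hIaR (by linarith))
        (by linarith)
      calc Pr p n (fun E => Q2 p a d r E1 (E ∩ SS n a d)) ≤
          Pr p n (fun E => (I.card : ℝ) / 4 < ((I.filter (fun i =>
            ((prv E (I.biUnion (T1 E1 a d r)) (T1 E1 a d r i) (a + d) (a + d + d)).card : ℝ) <
              d * r * p / 2)).card : ℝ)) := by
            refine qm _ _ ?_
            intro E hE hQ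
            have hup : ∀ w v : Fin n, a + d ≤ (v : ℕ) → (v : ℕ) < a + d + d →
                ((w, v) ∈ E ∩ SS n a d ↔ (w, v) ∈ E) := fun w v hv _ => by
              rw [mem_SS hE]
              exact ⟨fun h => h.1, fun h => ⟨h, hv⟩⟩
            have hQ2 := hQ.2
            simp only [prv_congr _ _ (a + d) (a + d + d) hup] at hQ2
            exact hQ2
        _ ≤ 200 * (d * r * p) / I.card := s3
        _ ≤ 800 / 3 * (d * r * p) / a := by
            have h5 : 3 * (a : ℝ) ≤ 4 * (I.card : ℝ) := by exact_mod_cast hc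
            have h6 : (0 : ℝ) < I.card := by exact_mod_cast hIpos
            rw [div_le_div_iff₀ h6 (by linarith)]
            have h7 : 0 ≤ (d : ℝ) * r * p := by linarith
            nlinarith
    · calc Pr p n (fun E => Q2 p a d r E1 (E ∩ SS n a d)) ≤ Pr p n (fun _ => ¬ True) :=
            qm _ _ fun E _ hQ => absurd hQ.1 hc
        _ = 0 := by
            rw [qn (fun _ => True), qt, sub_self]
        _ ≤ 800 / 3 * (d * r * p) / a := by
            have h7 : 0 ≤ (d : ℝ) * r * p := by linarith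
            positivity
  calc Pr p n (fun E => ¬ Stg E a d φ) ≤ Pr p n (fun E => (((I0 n a).card : ℝ) / 4 <
        (((I0 n a).filter (fun i =>
          ((prv E (I0 n a) {i} a (a + d)).card : ℝ) < d * (1 : ℕ) * p / 2)).card : ℝ)) ∨
          Q2 p a d r (E \ SS n a d) (E ∩ SS n a d)) := by
        refine qm _ _ fun E hE hS => ?_
        by_contra hcon
        rw [not_or] at hcon
        exact hS (stg_of p a d r φ E hE han hr2 hφ hcon.1 hcon.2)
    _ ≤ _ := qu _ _
    _ ≤ 200 * (d * (1 : ℕ) * p) / (I0 n a).card + 800 / 3 * (d * r * p) / a := add_le_add s1 s2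
    _ ≤ 1000 * (d * r * p) / a := by
        rw [card_I0 han, ← add_div]
        refine div_le_div_of_nonneg_right ?_ (by linarith)
        push_cast
        linarith

end

end Pool.Agent.H357.RL.Stg
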